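import Pool.Agent.MP_aa3754_al.Example

open Pool.Agent.MP_aa3754_al

theorem Pool.Agent.Results.MP_aa3754_al.Counterexample.result
    (F : Type*) [Field F] (h2 : (2 : F) ≠ 0) (h3 : (3 : F) ≠ 0) :
    ∃ (N : (Fin 3 → F) → F) (Δ : LinearMap.BilinForm F (Fin 3 → F))
      (sharp : QuadraticMap F (Fin 3 → F) (Fin 3 → F)) (c : Fin 3 → F),
      IsGenSharpedCubicForm N Δ sharp c ∧
      (∀ r, (∀ q, pairing N Δ c r q = 0) → r = 0) ∧
      ¬ DeltaIdentity N Δ sharp c :=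
  ⟨exN F, exDelta F, exSharp F, exC F, ex_isGen h2 h3, ex_nondeg h2 h3, ex_not_star h2 h3⟩
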