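import Pool.Agent.MP_aa3754_al.Star

open Pool.Agent.MP_aa3754_al

theorem Pool.Agent.Results.MP_aa3754_al.StarIffInvariant.result
    (F V : Type*) [Field F] [AddCommGroup V] [Module F V]
    (h2 : (2 : F) ≠ 0) (h3 : (3 : F) ≠ 0)
    (N : V → F) (Δ : LinearMap.BilinForm F V) (sharp : QuadraticMap F V V) (c : V)
    (h : IsGenSharpedCubicForm N Δ sharp c) :
    DeltaIdentity N Δ sharp c ↔ PairingInvariant N Δ sharp c :=
  star_iff h2 h3 h
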